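import Pool.Agent.Helper87.CA.Goals
import Pool.Agent.Helper96.Janson

/-! Packet CA-PK (MP_c5396e_co): a point with many excluding triples is killed. -/

set_option autoImplicit false

open Finset

namespace Pool.Agent.Helper4.CA

open Pool.Agent.Helper87.CA
open Pool.Agent.Helper96

section comb

variable {n : ℕ} {f : Fin n → Fin n} {v : ℤ × ℤ}

lemma mem_DD {x : ℤ × ℤ} (h : x ∈ DD f) : ∃ b c : Fin n, b ≠ c ∧ x = pt f b - pt f c := by
  unfold DD at h
  rw [Finset.mem_image] at h
  obtain ⟨p, hp, rfl⟩ := h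
  rw [Finset.mem_filter] at hp
  exact ⟨p.1, p.2, hp.2, rfl⟩

/-- each column is in at most four triples -/
lemma four (hf : Cos f) (hv : ∀ i, pt f i ≠ v) (A : Finset (Fin n)) (b c : Fin n → Fin n)
    (h : ∀ j ∈ A, b j ≠ c j ∧ v - pt f j = pt f (b j) - pt f (c j)) (x : Fin n) :
    (A.filter (fun j => x ∈ ({j, b j, c j} : Finset (Fin n)))).card ≤ 4 := by
  have hsub : A.filter (fun j => x ∈ ({j, b j, c j} : Finset (Fin n))) ⊆
      (A.filter (fun j => j = x) ∪ A.filter (fun j => b j = x)) ∪ A.filter (fun j => c j = x) := by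
    intro j hj
    rw [Finset.mem_filter] at hj
    obtain ⟨hjA, hx⟩ := hj
    simp only [Finset.mem_insert, Finset.mem_singleton] at hx
    simp only [Finset.mem_union, Finset.mem_filter]
    rcases hx with rfl | rfl | rfl
    · exact Or.inl (Or.inl ⟨hjA, rfl⟩)
    · exact Or.inl (Or.inr ⟨hjA, rfl⟩)
    · exact Or.inr ⟨hjA, rfl⟩
  have h1 : (A.filter (fun j => j = x)).card ≤ 1 := by
    rw [Finset.card_le_one]
    intro a ha a' ha'
    rw [Finset.mem_filter] at ha ha'
    rw [ha.2, ha'.2]
  have h2 : (A.filter (fun j => b j = x)).card ≤ 1 := by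
    rw [Finset.card_le_one]
    intro j hj j' hj'
    rw [Finset.mem_filter] at hj hj'
    have e1 := (h j hj.1).2
    have e2 := (h j' hj'.1).2
    rw [hj.2] at e1
    rw [hj'.2] at e2
    have hne : j ≠ c j := by
      intro hh
      rw [← hh] at e1
      exact hv x (sub_left_injective e1).symm
    have e3 : pt f j - pt f (c j) = pt f j' - pt f (c j') := by
      have a1 : pt f j - pt f (c j) = v - pt f x := by
        have := e1
        rw [sub_eq_sub_iff_add_eq_add] at this ⊢
        rw [this]; abel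
      have a2 : pt f j' - pt f (c j') = v - pt f x := by
        have := e2
        rw [sub_eq_sub_iff_add_eq_add] at this ⊢
        rw [this]; abel
      rw [a1, a2]
    exact (hf j (c j) j' (c j') hne e3).1
  have h3 : (A.filter (fun j => c j = x)).card ≤ 2 := by
    by_contra hcon
    push Not at hcon
    rw [Finset.two_lt_card] at hcon
    obtain ⟨j, hj, j', hj', j'', hj'', n1, n2, n3⟩ := hcon
    rw [Finset.mem_filter] at hj hj' hj''
    have key : ∀ i ∈ A, ∀ k ∈ A, c i = x → c k = x → i ≠ k → i = b k ∧ k = b i := by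
      intro i hi k hk ci ck hik
      have e1 := (h i hi).2
      have e2 := (h k hk).2
      rw [ci] at e1
      rw [ck] at e2
      have e3 : pt f i - pt f k = pt f (b k) - pt f (b i) := by
        have : (v - pt f k) - (v - pt f i) = (pt f (b k) - pt f x) - (pt f (b i) - pt f x) := by
          rw [e1, e2]
        have l : (v - pt f k) - (v - pt f i) = pt f i - pt f k := by abel
        have r : (pt f (b k) - pt f x) - (pt f (b i) - pt f x) = pt f (b k) - pt f (b i) := by abel
        rw [← l, ← r, this]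
      exact hf i k (b k) (b i) hik e3
    have k1 := key j hj.1 j' hj'.1 hj.2 hj'.2 n1
    have k2 := key j hj.1 j'' hj''.1 hj.2 hj''.2 n2
    exact n3 (k1.2.trans k2.2.symm)
  calc (A.filter (fun j => x ∈ ({j, b j, c j} : Finset (Fin n)))).card
      ≤ _ := Finset.card_le_card hsub
    _ ≤ _ := Finset.card_union_le _ _
    _ ≤ (1 + 1) + 2 := by
        refine add_le_add ((Finset.card_union_le _ _).trans (add_le_add h1 h2)) h3

/-- a maximal disjoint subfamily -/
lemma exists_disj (A : Finset (Fin n)) (X : Fin n → Finset (Fin n))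
    (h3 : ∀ j ∈ A, (X j).card ≤ 3)
    (h4 : ∀ x, (A.filter (fun j => x ∈ X j)).card ≤ 4) (hne : ∀ j, (X j).Nonempty) :
    ∃ J ⊆ A, (∀ i ∈ J, ∀ j ∈ J, i ≠ j → Disjoint (X i) (X j)) ∧ A.card ≤ 12 * J.card := by
  classical
  let Fam : Finset (Finset (Fin n)) := A.powerset.filter
    (fun J => ∀ i ∈ J, ∀ j ∈ J, i ≠ j → Disjoint (X i) (X j))
  have hF : Fam.Nonempty := ⟨∅, by simp [Fam]⟩
  obtain ⟨J, hJ, hmax⟩ := Finset.exists_max_image Fam (fun J => J.card) hF
  simp only [Fam, Finset.mem_filter, Finset.mem_powerset] at hJ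
  refine ⟨J, hJ.1, hJ.2, ?_⟩
  have hcov : A ⊆ J.biUnion (fun j => (X j).biUnion (fun x => A.filter (fun i => x ∈ X i))) := by
    intro i hi
    by_contra hcon
    have hdis : ∀ j ∈ J, Disjoint (X i) (X j) := by
      intro j hj
      rw [Finset.disjoint_left]
      intro x hx hx'
      apply hcon
      rw [Finset.mem_biUnion]
      refine ⟨j, hj, ?_⟩
      rw [Finset.mem_biUnion]
      exact ⟨x, hx', Finset.mem_filter.2 ⟨hi, hx⟩⟩
    have hiJ : i ∉ J := by
      intro hiJ
      have := hdis i hiJ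
      rw [disjoint_self] at this
      exact (hne i).ne_empty this
    have hins : insert i J ∈ Fam := by
      simp only [Fam, Finset.mem_filter, Finset.mem_powerset]
      refine ⟨Finset.insert_subset hi hJ.1, ?_⟩
      intro a ha b hb hab
      rw [Finset.mem_insert] at ha hb
      rcases ha with rfl | ha <;> rcases hb with rfl | hb
      · exact absurd rfl hab
      · exact hdis b hb
      · exact (hdis a ha).symm
      · exact hJ.2 a ha b hb hab
    have := hmax _ hins
    rw [Finset.card_insert_of_notMem hiJ] at this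
    omega
  calc A.card ≤ _ := Finset.card_le_card hcov
    _ ≤ ∑ j ∈ J, ((X j).biUnion (fun x => A.filter (fun i => x ∈ X i))).card :=
        Finset.card_biUnion_le
    _ ≤ ∑ j ∈ J, 12 := by
        refine Finset.sum_le_sum fun j hj => ?_
        calc _ ≤ ∑ x ∈ X j, (A.filter (fun i => x ∈ X i)).card := Finset.card_biUnion_le
          _ ≤ ∑ x ∈ X j, 4 := Finset.sum_le_sum fun x _ => h4 x
          _ = (X j).card * 4 := by rw [Finset.sum_const, smul_eq_mul]
          _ ≤ 3 * 4 := Nat.mul_le_mul_right _ (h3 j (hJ.1 hj))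
          _ = 12 := rfl
    _ = 12 * J.card := by rw [Finset.sum_const, smul_eq_mul, mul_comm]

end comb

theorem gPK : G_PK := by
  classical
  intro n u f v p hf hv h0 h1
  have hch : ∀ j : Fin n, ∃ bc : Fin n × Fin n, j ∈ A1 u f v →
      bc.1 ≠ bc.2 ∧ v - pt f j = pt f bc.1 - pt f bc.2 := by
    intro j
    by_cases hj : j ∈ A1 u f v
    · have hj' := hj
      unfold A1 at hj'
      rw [Finset.mem_filter] at hj'
      obtain ⟨b, c, hbc, e⟩ := mem_DD hj'.2.2
      exact ⟨(b, c), fun _ => ⟨hbc, e⟩⟩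
    · exact ⟨(j, j), fun h => absurd h hj⟩
  choose bc hbc using hch
  set b : Fin n → Fin n := fun j => (bc j).1 with hb
  set c : Fin n → Fin n := fun j => (bc j).2 with hc
  set X : Fin n → Finset (Fin n) := fun j => {j, b j, c j} with hX
  obtain ⟨J, hJA, hJd, hJc⟩ := exists_disj (A1 u f v) X
    (fun j _ => Finset.card_le_three) (fun x => four hf hv (A1 u f v) b c hbc x)
    (fun j => ⟨j, by simp [hX]⟩)
  have hk : pr p (fun ω : Fin n → Bool => ¬ Kill f (Rs ω) v)
      ≤ pr p (fun ω => ∀ i ∈ J, ¬ AllOn (X i) ω) := by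
    refine pr_mono h0 h1 fun ω hω i hi hall => hω ?_
    have hi' := hbc i (hJA hi)
    refine ⟨i, ?_, b i, ?_, c i, ?_, hi'.1, hi'.2⟩
    · simp only [Rs, Finset.mem_filter, Finset.mem_univ, true_and]
      exact hall i (by simp [hX])
    · simp only [Rs, Finset.mem_filter, Finset.mem_univ, true_and]
      exact hall (b i) (by simp [hX])
    · simp only [Rs, Finset.mem_filter, Finset.mem_univ, true_and]
      exact hall (c i) (by simp [hX])
  have hjan := janson h0 h1 J X
  have hz : ∑ i ∈ J, ∑ j ∈ J with (j ≠ i ∧ ¬ Disjoint (X i) (X j)), p ^ (X i ∪ X j).card = 0 := by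
    refine Finset.sum_eq_zero fun i hi => ?_
    rw [Finset.filter_false_of_mem, Finset.sum_empty]
    intro j hj hcon
    exact hcon.2 (hJd i hi j hj hcon.1.symm)
  rw [hz, mul_zero, add_zero] at hjan
  refine hk.trans (hjan.trans ?_)
  rw [Real.exp_le_exp]
  have hs : (J.card : ℝ) * p ^ 3 ≤ ∑ i ∈ J, p ^ (X i).card := by
    rw [← nsmul_eq_mul, ← Finset.sum_const]
    refine Finset.sum_le_sum fun i _ => ?_
    exact pow_le_pow_of_le_one h0 h1 Finset.card_le_three
  have hc' : ((A1 u f v).card : ℝ) ≤ 12 * J.card := by exact_mod_cast hJc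
  have hp3 : 0 ≤ p ^ 3 := by positivity
  have hA0 : (0 : ℝ) ≤ (A1 u f v).card := Nat.cast_nonneg _
  have e1 : p ^ 3 * ((A1 u f v).card : ℝ) / 13 ≤ (J.card : ℝ) * p ^ 3 := by
    have : p ^ 3 * ((A1 u f v).card : ℝ) ≤ p ^ 3 * (12 * J.card) :=
      mul_le_mul_of_nonneg_left hc' hp3
    have hj0 : (0 : ℝ) ≤ p ^ 3 * J.card := by positivity
    nlinarith
  linarith

end Pool.Agent.Helper4.CA
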